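import Pool.Agent.Y996.TL.Stm
import Pool.Agent.H492C.G4

/-! Task TL-A6 (helper523, adapted from `H981R2.TP.A6` and helper28's G4): `GR3` is a polynomial in
the first `A`, with value `0` at `0`. -/

namespace Pool.Agent.Y523.TL

open Pool.Agent.H988R2.Perc hiding X
open Pool.Agent.H492C
open Pool.Agent.Y996.TL
open Finset Polynomial

/-- the coefficient of the difference of the two pairings -/
noncomputable def c3 (p r k : ℕ) (R R1 R2 : St) : ℂ :=
  g4c p r k (R.act p) R1 R2 - g4c p r k R R1 R2

theorem pairG_map_act (p r k : ℕ) (i : ℕ) (f g h : St →₀ ℂ) {S S1 S2 : Finset St}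
    (hf : f.support ⊆ S) (hg : g.support ⊆ S1) (hh : h.support ⊆ S2) :
    pairG p r (Finsupp.mapDomain (St.act i) f) (comb2 k g h) =
      ∑ R ∈ S, ∑ R1 ∈ S1, ∑ R2 ∈ S2, f R * g R1 * h R2 * g4c p r k (R.act i) R1 R2 := by
  classical
  unfold pairG comb2
  rw [Finsupp.sum_mapDomain_index (by intro R; simp) (by
    intro R a1 a2
    rw [← Finsupp.sum_add]
    refine Finsupp.sum_congr (fun R' _ => ?_)
    ring)]
  rw [Finsupp.sum_of_support_subset f hf]
  · refine Finset.sum_congr rfl (fun R _ => ?_)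
    rw [Finsupp.sum_sum_index (by intro R'; simp) (by intro R' b1 b2; ring)]
    rw [Finsupp.sum_of_support_subset g hg]
    · refine Finset.sum_congr rfl (fun R1 _ => ?_)
      rw [Finsupp.sum_sum_index (by intro R'; simp) (by intro R' b1 b2; ring)]
      rw [Finsupp.sum_of_support_subset h hh]
      · refine Finset.sum_congr rfl (fun R2 _ => ?_)
        rw [Finsupp.sum_single_index (by simp)]
        unfold g4c
        congr 1
        ring
      · intro R2 _
        rw [Finsupp.sum_single_index (by simp)]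
        ring
    · intro R1 _
      simp
  · intro R _; simp

theorem pr3_tri (p r k : ℕ) (f g h : St →₀ ℂ) {S S1 S2 : Finset St} (hf : f.support ⊆ S)
    (hg : g.support ⊆ S1) (hh : h.support ⊆ S2) :
    pr3 p r f (comb2 k g h) =
      ∑ R ∈ S, ∑ R1 ∈ S1, ∑ R2 ∈ S2, f R * g R1 * h R2 * c3 p r k R R1 R2 := by
  unfold pr3 c3
  rw [pairG_map_act p r k p f g h hf hg hh, g4_tri p r k f g h hf hg hh, ← Finset.sum_sub_distrib]
  refine Finset.sum_congr rfl (fun R _ => ?_)
  rw [← Finset.sum_sub_distrib]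
  refine Finset.sum_congr rfl (fun R1 _ => ?_)
  rw [← Finset.sum_sub_distrib]
  refine Finset.sum_congr rfl (fun R2 _ => ?_)
  ring

/-- main polynomial lemma for `pr3` -/
theorem pr3_poly (p r k : ℕ) {d1 d2 d3 : ℕ} {f g h : ℂ → St →₀ ℂ} {S : Finset St}
    (hf : ∀ t, (f t).support ⊆ S) (hg : ∀ t, (g t).support ⊆ S) (hh : ∀ t, (h t).support ⊆ S)
    (pf : ∀ R, ∃ P : ℂ[X], P.natDegree ≤ d1 ∧ ∀ t, f t R = P.eval t)
    (pg : ∀ R, ∃ P : ℂ[X], P.natDegree ≤ d2 ∧ ∀ t, g t R = P.eval t)
    (ph : ∀ R, ∃ P : ℂ[X], P.natDegree ≤ d3 ∧ ∀ t, h t R = P.eval t) :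
    ∃ P : ℂ[X], P.natDegree ≤ d1 + d2 + d3 ∧
      ∀ t, pr3 p r (f t) (comb2 k (g t) (h t)) = P.eval t := by
  choose F hF1 hF2 using pf
  choose G hG1 hG2 using pg
  choose H hH1 hH2 using ph
  refine ⟨∑ R ∈ S, ∑ R1 ∈ S, ∑ R2 ∈ S, F R * G R1 * H R2 * C (c3 p r k R R1 R2), ?_, ?_⟩
  · refine Polynomial.natDegree_sum_le_of_forall_le _ _ (fun R _ => ?_)
    refine Polynomial.natDegree_sum_le_of_forall_le _ _ (fun R1 _ => ?_)
    refine Polynomial.natDegree_sum_le_of_forall_le _ _ (fun R2 _ => ?_)
    refine (Polynomial.natDegree_mul_C_le _ _).trans ?_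
    refine (Polynomial.natDegree_mul_le).trans ?_
    have e1 := (Polynomial.natDegree_mul_le (p := F R) (q := G R1))
    have := hF1 R
    have := hG1 R1
    have := hH1 R2
    omega
  · intro t
    rw [pr3_tri p r k _ _ _ (hf t) (hg t) (hh t), Polynomial.eval_finsetSum]
    refine Finset.sum_congr rfl (fun R _ => ?_)
    rw [Polynomial.eval_finsetSum]
    refine Finset.sum_congr rfl (fun R1 _ => ?_)
    rw [Polynomial.eval_finsetSum]
    refine Finset.sum_congr rfl (fun R2 _ => ?_)
    rw [eval_mul, eval_mul, eval_mul, eval_C, hF2, hG2, hH2]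

/-- both indicators are `1` if the faces are joined through the face `1` -/
theorem c3_zero {a b : ℕ} (ha : Odd a) (hb : Odd b) (R R1 R2 : St) (h : R.rel 1 (a + 3 + b))
    (h1 : R1.rel 1 a) : c3 a (a + 3 + b) ((a + 3) / 2) R R1 R2 = 0 := by
  obtain ⟨i, hi⟩ := ha
  obtain ⟨j, hj⟩ := hb
  have hk : 2 * ((a + 3) / 2) = a + 3 := by omega
  have hc : (comb ((a + 3) / 2) R1 R2).rel a 1 := by
    refine Or.inr (Or.inl ⟨by omega, by omega, R1.eqv.symm h1⟩)
  have e1 : jn a (a + 3 + b) R (comb ((a + 3) / 2) R1 R2) :=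
    Relation.EqvGen.trans _ 1 _ (Relation.EqvGen.rel _ _ (Or.inr hc))
      (Relation.EqvGen.rel _ _ (Or.inl h))
  have ha' : (R.act a).rel 1 (a + 3 + b) :=
    Or.inr ⟨by omega, by omega, by omega, by omega, Or.inl h⟩
  have e2 : jn a (a + 3 + b) (R.act a) (comb ((a + 3) / 2) R1 R2) :=
    Relation.EqvGen.trans _ 1 _ (Relation.EqvGen.rel _ _ (Or.inr hc))
      (Relation.EqvGen.rel _ _ (Or.inl ha'))
  unfold c3 g4c
  rw [if_pos e1, if_pos e2, sub_self]

theorem a6 : S_Z0 → S_A6 := by
  intro hZ A B hA hB hz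
  obtain ⟨S, h1, h2, h3⟩ := g4_supp (A.length + (B.length + 4) + 1) (A.length + 1 + 1) (B.length + 1)
  obtain ⟨P, hP, hP'⟩ := pr3_poly (A.length + 1) (A.length + 1 + 3 + B.length)
    ((A.length + 1 + 3) / 2)
    (f := fun t => Psi (t :: (A ++ 1 :: 1 :: 1 :: (B ++ [0]))))
    (g := fun t => Psi (t :: (A.map (fun x => x⁻¹) ++ [0]))) (h := fun _ => up1 B) (S := S)
    (d1 := A.length + B.length + 3) (d2 := A.length) (d3 := 0)
    (fun t => h1 _ (by simp)) (fun _ => h2 _ (by simp)) (fun _ => h3 _ (by simp))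
    (fun R => by
      obtain ⟨P, hP, hP'⟩ := g4_pd [] (A ++ 1 :: 1 :: 1 :: (B ++ [0])) (by
        simp only [List.length_append, List.length_nil, List.length_cons]
        obtain ⟨a, ha⟩ := hA
        obtain ⟨b, hb⟩ := hB
        exact ⟨a + b + 3, by omega⟩) R
      refine ⟨P, ?_, hP'⟩
      simp only [List.length_append, List.length_nil, List.length_cons] at hP
      omega)
    (fun R => by
      obtain ⟨P, hP, hP'⟩ := g4_pd [] (A.map (fun x => x⁻¹) ++ [0]) (by
        simp only [List.length_append, List.length_nil, List.length_cons, List.length_map]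
        obtain ⟨a, ha⟩ := hA
        exact ⟨a + 1, by omega⟩) R
      refine ⟨P, ?_, hP'⟩
      simp only [List.length_append, List.length_nil, List.length_cons, List.length_map] at hP
      omega)
    (fun R => g4_const _ R)
  refine ⟨P, by omega, fun t ht => ?_, ?_⟩
  · rw [← hP' t]
    have e := Psi_inv1 t (A.map (fun x => x⁻¹) ++ [0]) ht (by
      simp only [List.length_append, List.length_map, List.length_singleton]
      exact hA.add_one)
    simp only [List.length_append, List.length_map, List.length_singleton, Nat.add_sub_cancel] at e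
    rw [e, g4_smul_left]
    unfold pr3
    rw [g4_pair_smul, g4_pair_smul, ← mul_sub]
    unfold GR3 pr3 up1
    simp only [List.length_cons, List.map_cons, List.cons_append]
  · rw [← hP' 0, pr3_tri _ _ _ _ _ _ (subset_refl _) (subset_refl _) (subset_refl _)]
    refine Finset.sum_eq_zero (fun R hR => Finset.sum_eq_zero (fun R1 hR1 => Finset.sum_eq_zero
      (fun R2 _ => ?_)))
    have r1 : R.rel 1 (A.length + 1 + 3 + B.length) := by
      have := hZ (A ++ 1 :: 1 :: 1 :: B) (by
        simp only [List.length_append, List.length_cons]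
        obtain ⟨a, ha⟩ := hA
        obtain ⟨b, hb⟩ := hB
        exact ⟨a + b + 2, by omega⟩) (by
        intro z hz'
        simp only [List.mem_append, List.mem_cons] at hz'
        rcases hz' with h | h | h | h | h
        · exact hz z (by simp [h])
        · rw [h]; exact one_ne_zero
        · rw [h]; exact one_ne_zero
        · rw [h]; exact one_ne_zero
        · exact hz z (by simp [h])) R (by
        simpa only [List.append_assoc, List.cons_append] using hR)
      simp only [List.length_append, List.length_cons] at this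
      have e : A.length + (B.length + 1 + 1 + 1) + 1 = A.length + 1 + 3 + B.length := by ring
      rwa [e] at this
    have r2 : R1.rel 1 (A.length + 1) := by
      have := hZ (A.map (fun x => x⁻¹)) (by rw [List.length_map]; exact hA) (by
        intro z hz'
        rw [List.mem_map] at hz'
        obtain ⟨x, hx, rfl⟩ := hz'
        exact inv_ne_zero (hz x (by simp [hx]))) R1 hR1
      rwa [List.length_map] at this
    rw [c3_zero hA.add_one hB R R1 R2 r1 r2, mul_zero]

end Pool.Agent.Y523.TL
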